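import Pool.Agent.XTR.D3

/-!
The rank part of the Birch and Swinnerton-Dyer conjecture for infinitely many elliptic curves
without complex multiplication over infinitely many number fields of unbounded degree: the quadratic
twists of the elliptic curves `X₀(11)` and `X₀(19)` over all fields `F` of `2`-power degree which are
contained in the torsion fields `K(E₀[m])` of the elliptic curve `E₀ : y² + y = x³`, `K = ℚ(ω)`
(`X₀(11)`), or in the cyclotomic fields `ℚ(ζ_m)` (`X₀(19)`), where `m` is a product of distinct primes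
`p ≠ 3` with `4 p = a² + q b²`, `a`, `b` odd.
-/

set_option autoImplicit false

open NumberField IsDedekindDomain XNC
open scoped Classical ComplexConjugate

namespace Pool.Agent.XTR.RankForm

/-- Let `q = 11` or `q = 19`. Let `m` be a squarefree natural number all of whose prime factors `p` are
different from `3` and satisfy `4 p = a² + q b²` with odd integers `a`, `b`. Let `M_q(m)` be the following
subfield of `ℂ`: the field `K(E₀[m])` generated by the cube roots of unity and the coordinates of the
points of order `m` of `E₀ : y² + y = x³` if `q = 11`, and the cyclotomic field `ℚ(ζ_m)` if `q = 19`. Let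
`F ⊂ M_q(m)` be a number field whose degree is a
power of `2`. Let `d` be an algebraic integer in `F`
such that `d ≡ 1 mod 4`, `d` is a square in `M_q(m)`, and either `d = 1` or `d` is not a square in `F`.
Let `E` be the quadratic twist by `d` of the elliptic curve `X₀(q)` over `F`, i.e.
`y² + y = x³ - d x² - 10 d² x - (79 d³ + 1)/4` if `q = 11` and `y² + y = x³ + d x² - 9 d² x - (59 d³ + 1)/4`
if `q = 19`. Then `E` is an elliptic curve with `j`-invariant `-122023936/161051` (`q = 11`) or
`-89915392/6859` (`q = 19`), its `L`-series converges absolutely for `Re s > 3/2` and extends to an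
entire function `L`, whose order of vanishing at `s = 1` is the rank of `E(F)`; both are `0`:
`L(1) ≠ 0` and `E(F)` is finite.

Every quadratic extension `F'` of `F` inside `M_q(m)` is obtained by adjoining to `F` the square
root of such a `d`; every integer `d ≡ 1 mod 4` which divides `m` is a square in `M_q(m)`; and
`M_q(m)` contains the `m`-th roots of unity. For every `n` there are infinitely many primes `p` as above
for which `M_q(p)` has a subfield `F` which is cyclic of degree `2 ^ n` over `ℚ`. If `q = 11`, then for every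
`n > 0` there are infinitely many such fields `F` of degree `2 ^ (n + 1)` over `ℚ` which contain the cube
roots of unity and are not normal over `ℚ`, and infinitely many such fields `F ⊂ ℝ` of degree
`2 ^ (2 n)` over `ℚ` which are not normal over `ℚ`. -/
theorem result (q : ℕ) (hq : q = 11 ∨ q = 19) :
    (∀ m : ℕ, IsLevel q m →
      (∀ (F : IntermediateField ℚ ℂ) [NumberField F] (n : ℕ), Module.finrank ℚ F = 2 ^ n →
        F ≤ Big q m →
        (∀ d : 𝓞 F, IsTwist q m d → XT.HasJ q (XT.twist q d) ∧ XT.RankZeroBSD (XT.twist q d)) ∧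
        ∀ F' : IntermediateField ℚ ℂ, F ≤ F' → F' ≤ Big q m →
          Module.finrank ℚ F' = 2 * Module.finrank ℚ F →
          ∃ d : 𝓞 F, IsTwist q m d ∧ ∃ δ ∈ F', δ ∉ F ∧ δ ^ 2 = ((d : F) : ℂ)) ∧
      (∀ d : ℤ, d % 4 = 1 → d ∣ m → ∃ δ ∈ Big q m, δ ^ 2 = (d : ℂ)) ∧
      ∀ ζ : ℂ, ζ ^ m = 1 → ζ ∈ Big q m) ∧
    (∀ n : ℕ, {p : ℕ | IsGood q p ∧ ∃ F : IntermediateField ℚ ℂ, F ≤ Big q p ∧
      Module.finrank ℚ F = 2 ^ n ∧ IsGalois ℚ F ∧ IsCyclic Gal(F/ℚ)}.Infinite) ∧
    (q = 11 → ∀ n : ℕ, 0 < n →
      {F : IntermediateField ℚ ℂ | Module.finrank ℚ F = 2 ^ (n + 1) ∧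
        (∃ c ∈ F, c ^ 2 + c + 1 = 0) ∧ ¬ Normal ℚ F ∧ ∃ m : ℕ, IsLevel q m ∧ F ≤ Big q m}.Infinite ∧
      {F : IntermediateField ℚ ℂ | Module.finrank ℚ F = 2 ^ (2 * n) ∧ (∀ x ∈ F, conj x = x) ∧
        ¬ Normal ℚ F ∧ ∃ m : ℕ, IsLevel q m ∧ F ≤ Big q m}.Infinite) := by
  refine ⟨?_, XNC.infinite_cyclic hq, fun h11 => ?_⟩
  · intro m hm
    refine ⟨?_, fun d h4 hdm => XNC.sqrt_int hq m hm d h4 hdm, fun ζ hζ => XNC.root_mem hq m hm ζ hζ⟩
    intro F _ n h hF
    exact ⟨fun d hd => XNC.rankZero hq m hm F hF n h d hd,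
      fun F' hFF hF' h2 => XNC.exists_d hq m hm F hF F' hFF hF' h2⟩
  · subst h11
    exact XNC.infinite_nonNormal

end Pool.Agent.XTR.RankForm
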